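import Pool.Agent.LE.StmtsI

/-!
# NCK: noncommutative Khintchine inequality for Gaussian series of Hermitian matrices
-/

set_option autoImplicit false
set_option linter.unusedSectionVars false

open MeasureTheory ProbabilityTheory Function Filter Matrix

open scoped ENNReal BigOperators Topology NNReal ComplexOrder

noncomputable section

namespace Pool.Agent.LE.IR.H64

open Pool.Agent.Anderson hiding box mem_box card_box

variable {ι n : Type} [Fintype ι] [DecidableEq ι] [Fintype n] [DecidableEq n]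

/-- Matrix series with real coefficients. -/
def SM (A : ι → Matrix n n ℂ) (D : ι → ℝ) : Matrix n n ℂ := ∑ y, (D y : ℂ) • A y

theorem SM_herm {A : ι → Matrix n n ℂ} (hA : ∀ y, (A y).IsHermitian) (D : ι → ℝ) :
    (SM A D).IsHermitian := by
  unfold SM Matrix.IsHermitian
  rw [conjTranspose_sum]
  apply Finset.sum_congr rfl
  intro y _
  rw [conjTranspose_smul, (hA y).eq]
  congr 1
  simp

theorem SM_flip (A : ι → Matrix n n ℂ) (r : ι → ℝ) (y : ι) (e : ι → Bool) :
    SM A (sD r e) - SM A (sD r (flip1 y e)) = ((2 * (sg (e y) * r y) : ℝ) : ℂ) • A y := by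
  unfold SM
  rw [← Finset.sum_sub_distrib, Finset.sum_eq_single y]
  · rw [← sub_smul]
    congr 1
    unfold sD flip1
    rw [Function.update_self, sg_not]
    push_cast
    ring
  · intro b _ hb
    unfold sD flip1
    rw [Function.update_of_ne hb, sub_self]
  · simp

theorem quad_sq {A : Matrix n n ℂ} (hA : A.IsHermitian) (u : n → ℂ) :
    (star u ⬝ᵥ ((A * A) *ᵥ u)).re = nsq (A *ᵥ u) := by
  have h1 : star u ⬝ᵥ ((A * A) *ᵥ u) = star (A *ᵥ u) ⬝ᵥ (A *ᵥ u) := by
    rw [← mulVec_mulVec, dotProduct_mulVec, star_mulVec, hA.eq]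
  rw [h1]
  unfold nsq dotProduct
  rw [Complex.re_sum]
  apply Finset.sum_congr rfl
  intro i _
  have := Complex.mul_conj ((A *ᵥ u) i)
  rw [Complex.normSq_eq_norm_sq] at this
  have h2 : star ((A *ᵥ u) i) * (A *ᵥ u) i = ((‖(A *ᵥ u) i‖ ^ 2 : ℝ) : ℂ) := by
    rw [mul_comm]; exact this
  rw [Pi.star_apply, h2, Complex.ofReal_re]

theorem nck_step {A : ι → Matrix n n ℂ} (hA : ∀ y, (A y).IsHermitian) {L s : ℝ}
    (hK : ∀ u : n → ℂ, ∑ y, nsq (A y *ᵥ u) ≤ L * nsq u)
    {r : ι → ℝ} (hr : ∀ y, |r y| ≤ s) (m : ℕ) :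
    ∑ e : ι → Bool, (SM A (sD r e) ^ (2 * (m + 1))).trace.re ≤
      (2 * m + 1) * (s ^ 2 * L) * ∑ e : ι → Bool, (SM A (sD r e) ^ (2 * m)).trace.re := by
  have hs2 : ∀ y, r y ^ 2 ≤ s ^ 2 := fun y => by
    rw [← sq_abs (r y)]
    exact pow_le_pow_left₀ (abs_nonneg _) (hr y) 2
  -- expand one factor
  have h1 : ∀ e : ι → Bool, (SM A (sD r e) ^ (2 * (m + 1))).trace.re =
      ∑ y, sg (e y) * r y * (A y * SM A (sD r e) ^ (2 * m + 1)).trace.re := by
    intro e
    rw [show 2 * (m + 1) = (2 * m + 1) + 1 by ring, pow_succ']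
    generalize SM A (sD r e) ^ (2 * m + 1) = Z
    unfold SM
    rw [Finset.sum_mul, Matrix.trace_sum, Complex.re_sum]
    apply Finset.sum_congr rfl
    intro y _
    rw [Matrix.smul_mul, Matrix.trace_smul, smul_eq_mul, Complex.re_ofReal_mul]
    rfl
  have h2 : ∀ y, 2 * ∑ e : ι → Bool, sg (e y) * r y *
      (A y * SM A (sD r e) ^ (2 * m + 1)).trace.re =
      ∑ e : ι → Bool, sg (e y) * r y * ((A y * (SM A (sD r e) ^ (2 * m + 1) -
        SM A (sD r (flip1 y e)) ^ (2 * m + 1))).trace.re) := by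
    intro y
    have e1 := sum_flip1 y (fun e : ι → Bool => sg (e y) * r y *
      (A y * SM A (sD r e) ^ (2 * m + 1)).trace.re)
    rw [two_mul]
    nth_rw 2 [← e1]
    rw [← Finset.sum_add_distrib]
    apply Finset.sum_congr rfl
    intro e _
    have : sg (flip1 y e y) = -sg (e y) := by
      unfold flip1; rw [Function.update_self, sg_not]
    rw [this, Matrix.mul_sub, Matrix.trace_sub, Complex.sub_re]
    ring
  have h3 : ∀ y (e : ι → Bool), sg (e y) * r y * ((A y * (SM A (sD r e) ^ (2 * m + 1) -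
        SM A (sD r (flip1 y e)) ^ (2 * m + 1))).trace.re) ≤
      r y ^ 2 * ((2 * m + 1) * ((A y * A y * SM A (sD r e) ^ (2 * m)).trace.re +
        (A y * A y * SM A (sD r (flip1 y e)) ^ (2 * m)).trace.re)) := by
    intro y e
    set X := SM A (sD r e) with hX
    set Y := SM A (sD r (flip1 y e)) with hY
    have hd : X - Y = ((2 * (sg (e y) * r y) : ℝ) : ℂ) • A y := SM_flip A r y e
    rw [pow_sub_pow_nc, Matrix.mul_sum, Matrix.trace_sum, Complex.re_sum]
    have e2 : ∀ q, (A y * (X ^ q * (X - Y) * Y ^ (2 * m + 1 - 1 - q))).trace.re =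
        2 * (sg (e y) * r y) * (A y * X ^ q * A y * Y ^ (2 * m - q)).trace.re := by
      intro q
      rw [hd, show 2 * m + 1 - 1 - q = 2 * m - q by omega, Matrix.mul_smul, Matrix.smul_mul,
        Matrix.mul_smul, Matrix.trace_smul, smul_eq_mul, Complex.re_ofReal_mul]
      simp only [Matrix.mul_assoc]
    simp only [e2]
    rw [← Finset.mul_sum]
    have h4 := trace_sum_le (SM_herm hA (sD r e)) (SM_herm hA (sD r (flip1 y e)))
      (hA y) m
    rw [← hX, ← hY] at h4
    have h5 := sg_sq (e y)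
    have h6 : sg (e y) * r y * (2 * (sg (e y) * r y) *
        ∑ i ∈ Finset.range (2 * m + 1), (A y * X ^ i * A y * Y ^ (2 * m - i)).trace.re) =
        r y ^ 2 * (2 * ∑ i ∈ Finset.range (2 * m + 1),
          (A y * X ^ i * A y * Y ^ (2 * m - i)).trace.re) := by
      linear_combination (2 * r y ^ 2 * ∑ i ∈ Finset.range (2 * m + 1),
          (A y * X ^ i * A y * Y ^ (2 * m - i)).trace.re) * h5
    rw [h6]
    exact mul_le_mul_of_nonneg_left h4 (sq_nonneg _)
  -- trace of squares times even powers is nonnegative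
  have hnn : ∀ y (e : ι → Bool), 0 ≤ (A y * A y * SM A (sD r e) ^ (2 * m)).trace.re := by
    intro y e
    have hX := SM_herm hA (sD r e)
    have h : (A y * A y * SM A (sD r e) ^ (2 * m)).trace =
        ((A y * SM A (sD r e) ^ m)ᴴ * (A y * SM A (sD r e) ^ m)).trace := by
      rw [conjTranspose_mul, (hA y).eq, (hX.pow m).eq, two_mul, pow_add, Matrix.mul_assoc,
        Matrix.mul_assoc, Matrix.trace_mul_comm (SM A (sD r e) ^ m)]
      simp only [Matrix.mul_assoc]
    rw [h]
    exact trace_conj_nonneg _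
  have h4 : ∀ y, ∑ e : ι → Bool, sg (e y) * r y *
      (A y * SM A (sD r e) ^ (2 * m + 1)).trace.re ≤
      (2 * m + 1) * s ^ 2 * ∑ e : ι → Bool, (A y * A y * SM A (sD r e) ^ (2 * m)).trace.re := by
    intro y
    have e3 : 2 * ∑ e : ι → Bool, sg (e y) * r y *
        (A y * SM A (sD r e) ^ (2 * m + 1)).trace.re ≤
        r y ^ 2 * ((2 * m + 1) *
        (2 * ∑ e : ι → Bool, (A y * A y * SM A (sD r e) ^ (2 * m)).trace.re)) := by
      rw [h2 y]
      refine (Finset.sum_le_sum fun e _ => h3 y e).trans (le_of_eq ?_)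
      rw [← Finset.mul_sum, ← Finset.mul_sum, Finset.sum_add_distrib,
        sum_flip1 y (fun e => (A y * A y * SM A (sD r e) ^ (2 * m)).trace.re)]
      ring
    have hT : 0 ≤ ∑ e : ι → Bool, (A y * A y * SM A (sD r e) ^ (2 * m)).trace.re :=
      Finset.sum_nonneg fun e _ => hnn y e
    set T := ∑ e : ι → Bool, (A y * A y * SM A (sD r e) ^ (2 * m)).trace.re
    have h10 : r y ^ 2 * ((2 * m + 1) * (2 * T)) ≤ s ^ 2 * ((2 * m + 1) * (2 * T)) :=
      mul_le_mul_of_nonneg_right (hs2 y) (by positivity)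
    linarith
  have hquad : ∀ u : n → ℂ, (star u ⬝ᵥ ((∑ y, A y * A y) *ᵥ u)).re ≤ L * ∑ y, ‖u y‖ ^ 2 := by
    intro u
    have h5 := hK u
    have h6 : (star u ⬝ᵥ ((∑ y, A y * A y) *ᵥ u)).re = ∑ y, nsq (A y *ᵥ u) := by
      rw [Matrix.sum_mulVec, dotProduct_sum, Complex.re_sum]
      exact Finset.sum_congr rfl fun y _ => quad_sq (hA y) u
    rw [h6]
    exact h5
  calc ∑ e : ι → Bool, (SM A (sD r e) ^ (2 * (m + 1))).trace.re
      = ∑ y, ∑ e : ι → Bool, sg (e y) * r y *
          (A y * SM A (sD r e) ^ (2 * m + 1)).trace.re := by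
        simp only [h1]
        rw [Finset.sum_comm]
    _ ≤ ∑ y, (2 * m + 1) * s ^ 2 *
          ∑ e : ι → Bool, (A y * A y * SM A (sD r e) ^ (2 * m)).trace.re :=
        Finset.sum_le_sum fun y _ => h4 y
    _ = (2 * m + 1) * s ^ 2 *
          ∑ e : ι → Bool, ((∑ y, A y * A y) * SM A (sD r e) ^ (2 * m)).trace.re := by
        rw [← Finset.mul_sum, Finset.sum_comm]
        congr 1
        apply Finset.sum_congr rfl
        intro e _
        rw [Matrix.sum_mul, Matrix.trace_sum, Complex.re_sum]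
    _ ≤ (2 * m + 1) * s ^ 2 *
          ∑ e : ι → Bool, (L * (SM A (sD r e) ^ (2 * m)).trace.re) := by
        gcongr with e _
        exact trace_K_le (SM_herm hA _) hquad m
    _ = _ := by
        rw [← Finset.mul_sum]
        ring

theorem nck_signs {A : ι → Matrix n n ℂ} (hA : ∀ y, (A y).IsHermitian) {L s : ℝ} (hL : 0 ≤ L)
    (hK : ∀ u : n → ℂ, ∑ y, nsq (A y *ᵥ u) ≤ L * nsq u)
    {r : ι → ℝ} (hr : ∀ y, |r y| ≤ s) (p : ℕ) :
    ∑ e : ι → Bool, (SM A (sD r e) ^ (2 * p)).trace.re ≤
      (2 ^ Fintype.card ι) * (Fintype.card n * (2 * p * (s ^ 2 * L)) ^ p) := by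
  have hQ : 0 ≤ s ^ 2 * L := by positivity
  have key : ∀ P : ℕ, ∀ p ≤ P, ∑ e : ι → Bool, (SM A (sD r e) ^ (2 * p)).trace.re ≤
      (2 ^ Fintype.card ι) * (Fintype.card n * (2 * P * (s ^ 2 * L)) ^ p) := by
    intro P p
    induction p with
    | zero =>
      intro _
      simp [Matrix.trace_one]
    | succ p ih =>
      intro hp
      have h1 := nck_step hA hK hr p
      have h2 := ih (by omega)
      have hpP : (2 * (p : ℝ) + 1) ≤ 2 * P := by
        have : (p : ℝ) + 1 ≤ P := by exact_mod_cast hp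
        linarith
      calc _ ≤ (2 * (p:ℝ) + 1) * (s ^ 2 * L) *
            ∑ e : ι → Bool, (SM A (sD r e) ^ (2 * p)).trace.re := h1
        _ ≤ (2 * (P:ℝ)) * (s ^ 2 * L) *
            ((2 ^ Fintype.card ι) * (Fintype.card n * (2 * P * (s ^ 2 * L)) ^ p)) := by
            have hnn : 0 ≤ ∑ e : ι → Bool, (SM A (sD r e) ^ (2 * p)).trace.re :=
              Finset.sum_nonneg fun e _ => trace_pow_nonneg (SM_herm hA _) p
            apply mul_le_mul _ h2 hnn (by positivity)
            exact mul_le_mul_of_nonneg_right hpP hQ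
        _ = _ := by rw [pow_succ]; ring
  exact key p p le_rfl

theorem continuous_SM (A : ι → Matrix n n ℂ) (q : ℕ) :
    Continuous fun D : ι → ℝ => (SM A D ^ q).trace.re := by
  have h1 : Continuous fun D : ι → ℝ => SM A D := by
    unfold SM
    apply continuous_finsetSum
    intro y _
    have : Continuous fun D : ι → ℝ => (D y : ℂ) := by fun_prop
    exact this.smul continuous_const
  have h2 : Continuous fun D : ι → ℝ => (SM A D ^ q).trace := (h1.pow q).matrix_trace
  exact Complex.continuous_re.comp h2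

theorem gauss_sg (v : ℝ≥0) (b : Bool) :
    MeasurePreserving (fun t : ℝ => sg b * t) (gaussianReal 0 v) (gaussianReal 0 v) := by
  cases b
  · have : (fun t : ℝ => sg false * t) = fun t => -t := by
      funext t; simp [sg]
    rw [this]
    refine ⟨measurable_neg, ?_⟩
    rw [gaussianReal_map_neg, neg_zero]
  · have : (fun t : ℝ => sg true * t) = id := by
      funext t; simp [sg]
    rw [this]
    exact MeasurePreserving.id _

theorem tau_sg (s t : ℝ) (b : Bool) : tau s (sg b * t) = sg b * tau s t := by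
  cases b
  · have h1 : sg false * t = -t := by simp [sg]
    have h2 : sg false * tau s t = -tau s t := by simp [sg]
    rw [h1, h2, tau_neg]
  · have h1 : sg true * t = t := by simp [sg]
    have h2 : sg true * tau s t = tau s t := by simp [sg]
    rw [h1, h2]

theorem nck_lintegral {A : ι → Matrix n n ℂ} (hA : ∀ y, (A y).IsHermitian) {L s : ℝ}
    (hL : 0 ≤ L) (hs : 0 ≤ s)
    (hK : ∀ u : n → ℂ, ∑ y, nsq (A y *ᵥ u) ≤ L * nsq u) (v : ℝ≥0) (p : ℕ) :
    ∫⁻ V, ENNReal.ofReal ((SM A (fun y => tau s (V y)) ^ (2 * p)).trace.re)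
        ∂(Measure.pi fun _ : ι => gaussianReal 0 v) ≤
      ENNReal.ofReal (Fintype.card n * (2 * p * (s ^ 2 * L)) ^ p) := by
  set P : Measure (ι → ℝ) := Measure.pi fun _ : ι => gaussianReal 0 v with hP
  set F : (ι → ℝ) → ℝ≥0∞ := fun D => ENNReal.ofReal ((SM A D ^ (2 * p)).trace.re) with hF
  have hFm : Measurable F :=
    ENNReal.measurable_ofReal.comp (continuous_SM A (2 * p)).measurable
  have htm : Measurable (fun V : ι → ℝ => fun y => tau s (V y)) := by
    apply measurable_pi_lambda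
    intro y
    exact (measurable_tau s).comp (measurable_pi_apply y)
  have hGm : Measurable (fun V : ι → ℝ => F (fun y => tau s (V y))) := hFm.comp htm
  have h2 : ∀ e : ι → Bool, ∫⁻ V, F (sD (fun y => tau s (V y)) e) ∂P =
      ∫⁻ V, F (fun y => tau s (V y)) ∂P := by
    intro e
    have hp : MeasurePreserving (fun D : ι → ℝ => fun y => sg (e y) * D y) P P :=
      measurePreserving_pi (fun _ : ι => gaussianReal 0 v) (fun _ : ι => gaussianReal 0 v)
        (f := fun y t => sg (e y) * t) (fun y => gauss_sg v (e y))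
    have h3 := hp.lintegral_comp hGm
    rw [← h3]
    apply lintegral_congr
    intro V
    congr 1
    funext y
    show sg (e y) * tau s (V y) = tau s (sg (e y) * V y)
    rw [tau_sg]
  have hsDm : ∀ e : ι → Bool, Measurable (fun V : ι → ℝ => F (sD (fun y => tau s (V y)) e)) := by
    intro e
    apply hFm.comp
    unfold sD
    apply measurable_pi_lambda
    intro y
    exact ((measurable_tau s).comp (measurable_pi_apply y)).const_mul _
  have h4 : ∑ e : ι → Bool, ∫⁻ V, F (sD (fun y => tau s (V y)) e) ∂P ≤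
      ENNReal.ofReal ((2 ^ Fintype.card ι) *
        (Fintype.card n * (2 * p * (s ^ 2 * L)) ^ p)) := by
    rw [← lintegral_finsetSum (μ := P) Finset.univ
      (f := fun (e : ι → Bool) V => F (sD (fun y => tau s (V y)) e)) (fun e _ => hsDm e)]
    have h5 : ∀ V : ι → ℝ, ∑ e : ι → Bool, F (sD (fun y => tau s (V y)) e) ≤
        ENNReal.ofReal ((2 ^ Fintype.card ι) *
          (Fintype.card n * (2 * p * (s ^ 2 * L)) ^ p)) := by
      intro V
      rw [hF]
      rw [← ENNReal.ofReal_sum_of_nonneg (fun e _ => trace_pow_nonneg (SM_herm hA _) p)]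
      apply ENNReal.ofReal_le_ofReal
      exact nck_signs hA hL hK (fun y => abs_tau_le hs _) p
    calc _ ≤ ∫⁻ _ : ι → ℝ, ENNReal.ofReal ((2 ^ Fintype.card ι) *
          (Fintype.card n * (2 * p * (s ^ 2 * L)) ^ p)) ∂P := lintegral_mono h5
      _ = _ := by rw [lintegral_const, measure_univ, mul_one]
  simp only [h2] at h4
  rw [Finset.sum_const, Finset.card_univ, Fintype.card_fun, Fintype.card_bool,
    ENNReal.ofReal_mul (by positivity), nsmul_eq_mul] at h4
  have e2 : ENNReal.ofReal (2 ^ Fintype.card ι) = ((2 ^ Fintype.card ι : ℕ) : ℝ≥0∞) := by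
    rw [← ENNReal.ofReal_natCast]
    push_cast
    rfl
  rw [e2] at h4
  exact (ENNReal.mul_le_mul_iff_right (by positivity) (ENNReal.natCast_ne_top _)).1 h4

/-- Gaussian tail. -/
theorem tail_one (v : ℝ≥0) {r : ℝ} (hr : 0 ≤ r) :
    gaussianReal 0 v {x | r * Real.sqrt v < |x|} ≤
      ENNReal.ofReal (2 * Real.exp (-(r ^ 2 / 2))) := by
  by_cases hv : v = 0
  · subst hv
    rw [gaussianReal_zero_var]
    have : (Measure.dirac (0 : ℝ)) {x | r * Real.sqrt ((0 : ℝ≥0) : ℝ) < |x|} = 0 := by
      rw [Measure.dirac_apply' _ (by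
        exact measurableSet_lt measurable_const (by fun_prop))]
      simp
    rw [this]
    exact zero_le
  · have hvpos : (0 : ℝ) < v := by
      have : 0 < v := pos_iff_ne_zero.mpr hv
      exact_mod_cast this
    have hsq : 0 < Real.sqrt v := Real.sqrt_pos.mpr hvpos
    have hlaw : (gaussianReal 0 v).map (fun x => x / Real.sqrt v) = gaussianReal 0 1 := by
      rw [gaussianReal_map_div_const, zero_div]
      congr 1
      apply NNReal.eq
      simp only [NNReal.coe_div, NNReal.coe_mk, NNReal.coe_one, Real.sq_sqrt hvpos.le]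
      exact div_self hvpos.ne'
    have h := gauss_tail (P := gaussianReal 0 v) (X := fun x => x / Real.sqrt v) hlaw hr
    refine le_trans (measure_mono ?_) h
    intro x hx
    simp only [Set.mem_ofPred_eq] at hx ⊢
    rw [abs_div, abs_of_pos hsq, lt_div_iff₀ hsq]
    exact hx

theorem nck : NckStmt := by
  intro ι n _ _ _ _ X v Θ τ r k hX hΘ hK hτ hr hk
  set P : Measure (ι → ℝ) := Measure.pi fun _ : ι => gaussianReal 0 v with hP
  set s : ℝ := r * Real.sqrt v with hs
  have hs0 : 0 ≤ s := by positivity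
  have hs2 : s ^ 2 = r ^ 2 * v := by
    rw [hs, mul_pow, Real.sq_sqrt (NNReal.coe_nonneg v)]
  set F : (ι → ℝ) → ℝ≥0∞ := fun V =>
    ENNReal.ofReal ((SM X (fun y => tau s (V y)) ^ (2 * k)).trace.re) with hF
  have htm : Measurable (fun V : ι → ℝ => fun y => tau s (V y)) := by
    apply measurable_pi_lambda
    intro y
    exact (measurable_tau s).comp (measurable_pi_apply y)
  have hFm : Measurable F :=
    ENNReal.measurable_ofReal.comp ((continuous_SM X (2 * k)).measurable.comp htm)
  have h1 : ∫⁻ V, F V ∂P ≤ ENNReal.ofReal (Fintype.card n * (2 * k * (s ^ 2 * Θ)) ^ k) :=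
    nck_lintegral hX hΘ hs0 hK v k
  -- Markov
  have hmarkov : P {V | ENNReal.ofReal (τ ^ (2 * k)) ≤ F V} ≤
      ENNReal.ofReal (Fintype.card n * (2 * k * r ^ 2 * v * Θ / τ ^ 2) ^ k) := by
    have hτk : 0 < τ ^ (2 * k) := by positivity
    have h5 := meas_ge_le_lintegral_div (μ := P) hFm.aemeasurable
      (ε := ENNReal.ofReal (τ ^ (2 * k))) (by
        rw [Ne, ENNReal.ofReal_eq_zero, not_le]; exact hτk) ENNReal.ofReal_ne_top
    refine h5.trans ?_
    rw [ENNReal.div_le_iff (by rw [Ne, ENNReal.ofReal_eq_zero, not_le]; exact hτk)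
      ENNReal.ofReal_ne_top, ← ENNReal.ofReal_mul (by positivity)]
    refine h1.trans (le_of_eq ?_)
    congr 1
    rw [pow_mul τ 2 k, mul_assoc (Fintype.card n : ℝ), ← mul_pow]
    congr 2
    rw [hs2]
    field_simp
  have htail : ∀ y : ι, P {V | s < |V y|} ≤ ENNReal.ofReal (2 * Real.exp (-(r ^ 2 / 2))) := by
    intro y
    have hm : MeasurableSet {x : ℝ | s < |x|} := measurableSet_lt measurable_const (by fun_prop)
    have hmp := measurePreserving_eval (fun _ : ι => gaussianReal 0 v) y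
    have := hmp.measure_preimage hm.nullMeasurableSet
    have h2 : P {V | s < |V y|} = gaussianReal 0 v {x : ℝ | s < |x|} := by
      rw [← this]
      rfl
    rw [h2]
    exact tail_one v hr
  have hsub : {V : ι → ℝ | ¬ ∀ u : n → ℂ,
      nsq (Matrix.mulVec (∑ y, (V y : ℂ) • X y) u) ≤ τ ^ 2 * nsq u} ⊆
      (⋃ y, {V | s < |V y|}) ∪ {V | ENNReal.ofReal (τ ^ (2 * k)) ≤ F V} := by
    intro V hV
    by_contra hcon
    rw [Set.mem_union, not_or] at hcon
    obtain ⟨hc1, hc2⟩ := hcon
    apply hV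
    have hbd : ∀ y, |V y| ≤ s := by
      intro y
      by_contra hlt
      exact hc1 (Set.mem_iUnion.mpr ⟨y, not_le.mp hlt⟩)
    have heq : (fun y => tau s (V y)) = V := by
      funext y
      exact tau_eq (hbd y)
    rw [Set.mem_ofPred_eq, not_le] at hc2
    have h2 : (SM X V ^ (2 * k)).trace.re ≤ τ ^ (2 * k) := by
      by_contra h3
      push Not at h3
      have h4 : F V = ENNReal.ofReal ((SM X V ^ (2 * k)).trace.re) := by
        simp only [hF, heq]
      rw [h4] at hc2
      exact absurd (ENNReal.ofReal_le_ofReal h3.le) (not_le.2 hc2)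
    intro u
    exact op_of_trace (SM_herm hX V) hk hτ.le h2 u
  refine (measure_mono hsub).trans ((measure_union_le _ _).trans ?_)
  rw [ENNReal.ofReal_add (by positivity) (by positivity)]
  apply add_le_add _ hmarkov
  refine (measure_iUnion_fintype_le P _).trans ?_
  refine (Finset.sum_le_sum fun y _ => htail y).trans (le_of_eq ?_)
  rw [Finset.sum_const, Finset.card_univ, nsmul_eq_mul, ← ENNReal.ofReal_natCast,
    ← ENNReal.ofReal_mul (by positivity)]
  congr 1
  ring

end Pool.Agent.LE.IR.H64
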